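import Pool.Agent.N437.SPC.Stm

/-! # Project SPC (helper437), part CT: choice of the parameters (helper862) -/

set_option autoImplicit false

namespace Pool.Agent.N862.SPC

open Finset Pool.Agent.N437.SPC

theorem logcard {x : ℕ} {y : ℝ} (_hy : 0 ≤ y) (h : Real.log x ≤ y) : (x : ℝ) ≤ Real.exp y := by
  rcases Nat.eq_zero_or_pos x with h0 | h0
  · subst h0
    simpa using (Real.exp_pos y).le
  · have hx : (0 : ℝ) < x := by exact_mod_cast h0
    rwa [← Real.log_le_iff_le_exp hx]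

/-- condition (i) -/
theorem cond1 {x L : ℕ} {y : ℝ} (hy : 0 ≤ y) (hx : Real.log x ≤ y) (hL : 400 * (y + 1) ≤ L) :
    399 ^ L * x < 400 ^ L := by
  have h1 : (x : ℝ) ≤ Real.exp y := logcard hy hx
  have h2 : (399 / 400 : ℝ) ^ L ≤ Real.exp (-(L / 400 : ℝ)) := by
    have h3 : (399 / 400 : ℝ) ≤ Real.exp (-(1 / 400)) := by
      have := Real.add_one_le_exp (-(1 / 400 : ℝ))
      linarith
    have h4 := pow_le_pow_left₀ (by norm_num) h3 L
    rw [← Real.exp_nat_mul] at h4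
    have h5 : (L : ℝ) * -(1 / 400) = -(L / 400) := by ring
    rwa [h5] at h4
  have h6 : (399 : ℝ) ^ L = 400 ^ L * (399 / 400) ^ L := by
    rw [← mul_pow]
    norm_num
  have h7 : (399 : ℝ) ^ L * x < 400 ^ L := by
    have h8 : (399 / 400 : ℝ) ^ L * x ≤ Real.exp (-1) := by
      calc (399 / 400 : ℝ) ^ L * x ≤ Real.exp (-(L / 400 : ℝ)) * Real.exp y :=
            mul_le_mul h2 h1 (by positivity) (Real.exp_pos _).le
        _ = Real.exp (-(L / 400 : ℝ) + y) := (Real.exp_add _ _).symm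
        _ ≤ Real.exp (-1) := by
          apply Real.exp_le_exp.2
          linarith
    have h9 : Real.exp (-1) < 1 :=
      (Real.exp_lt_exp.2 (by norm_num : (-1 : ℝ) < 0)).trans_eq Real.exp_zero
    have h10 : (0 : ℝ) < 400 ^ L := by positivity
    rw [h6, mul_assoc]
    nlinarith
  exact_mod_cast h7

/-- condition (v) -/
theorem cond5 (r x s t L : ℕ) (hs : 0 < s) (ht : 0 < t) (R y E : ℝ)
    (hy : 0 ≤ y) (hx : Real.log x ≤ y) (hR : Real.log (r + 2) + Real.log 3 ≤ R)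
    (hE : ((t + 3 * s + 3 : ℕ) : ℝ) * L * (R + y) ≤ E) :
    (((1 + r * (x ^ t + 1) * (r * x ^ 2) ^ s * (s + 1)) ^ L : ℕ) : ℝ) ≤ Real.exp E := by
  set Q : ℝ := (r + 2) * (x + 2) with hQ
  have hr0 : (0 : ℝ) ≤ r := Nat.cast_nonneg r
  have hx0 : (0 : ℝ) ≤ x := Nat.cast_nonneg x
  have hQ4 : 4 ≤ Q := by
    rw [hQ]
    nlinarith
  have hQ0 : 0 < Q := by linarith
  have hxQ : (x : ℝ) ≤ Q := by
    rw [hQ]
    nlinarith
  have hrQ : (r : ℝ) ≤ Q := by
    rw [hQ]
    nlinarith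
  have h1 : (x : ℝ) ^ t + 1 ≤ Q ^ (t + 1) := by
    have h2 : (x : ℝ) ^ t ≤ Q ^ t := pow_le_pow_left₀ hx0 hxQ t
    have h3 : 1 ≤ Q ^ t := one_le_pow₀ (by linarith)
    rw [pow_succ]
    nlinarith
  have h2 : ((r : ℝ) * x ^ 2) ^ s ≤ Q ^ (2 * s) := by
    rw [pow_mul]
    refine pow_le_pow_left₀ (by positivity) ?_ s
    rw [hQ, mul_pow]
    refine mul_le_mul ?_ ?_ (by positivity) (by positivity)
    · nlinarith
    · nlinarith
  have h3 : (s : ℝ) + 1 ≤ Q ^ s := by
    have h4 : s + 1 ≤ 2 ^ s := Nat.lt_two_pow_self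
    have h5 : ((s + 1 : ℕ) : ℝ) ≤ ((2 ^ s : ℕ) : ℝ) := by exact_mod_cast h4
    push_cast at h5
    exact h5.trans (pow_le_pow_left₀ (by norm_num) (by linarith) s)
  have h4 : (1 : ℝ) + r * (x ^ t + 1) * (r * x ^ 2) ^ s * (s + 1) ≤ Q ^ (t + 3 * s + 3) := by
    have h5 : (r : ℝ) * (x ^ t + 1) * (r * x ^ 2) ^ s * (s + 1) ≤
        Q * Q ^ (t + 1) * Q ^ (2 * s) * Q ^ s := by
      gcongr
    have h6 : Q * Q ^ (t + 1) * Q ^ (2 * s) * Q ^ s = Q ^ (t + 3 * s + 2) := by
      rw [← pow_succ', ← pow_add, ← pow_add]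
      congr 1
      ring
    have h7 : Q ^ (t + 3 * s + 3) = Q ^ (t + 3 * s + 2) * Q := pow_succ _ _
    have h8 : 1 ≤ Q ^ (t + 3 * s + 2) := one_le_pow₀ (by linarith)
    rw [h6] at h5
    rw [h7]
    nlinarith
  have h5 : (((1 + r * (x ^ t + 1) * (r * x ^ 2) ^ s * (s + 1)) ^ L : ℕ) : ℝ) ≤
      Q ^ ((t + 3 * s + 3) * L) := by
    push_cast
    rw [pow_mul]
    exact pow_le_pow_left₀ (by positivity) h4 L
  refine h5.trans ?_
  have h6 : Real.log Q ≤ R + y := by
    rw [hQ, Real.log_mul (by positivity) (by positivity)]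
    have h7 : (x : ℝ) + 2 ≤ 3 * Real.exp y := by
      have := logcard hy hx
      have h8 : 1 ≤ Real.exp y := Real.one_le_exp hy
      linarith
    have h8 : Real.log (x + 2) ≤ Real.log 3 + y := by
      have := Real.log_le_log (by positivity) h7
      rwa [Real.log_mul (by norm_num) (Real.exp_pos y).ne', Real.log_exp] at this
    linarith
  have h7 : Q ^ ((t + 3 * s + 3) * L) = Real.exp (((t + 3 * s + 3) * L : ℕ) * Real.log Q) := by
    rw [Real.exp_nat_mul, Real.exp_log hQ0]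
  rw [h7]
  apply Real.exp_le_exp.2
  refine le_trans ?_ hE
  push_cast
  exact mul_le_mul_of_nonneg_left h6 (by positivity)

theorem t_CT (h : S_FAM) : S_CT := by
  intro r δ hδ
  set d : ℝ := min δ 1 with hd
  have hd0 : 0 < d := lt_min hδ one_pos
  have hd1 : d ≤ 1 := min_le_right _ _
  have hdδ : d ≤ δ := min_le_left _ _
  set c : ℝ := d / 12 with hc
  have hc0 : 0 < c := by positivity
  set R : ℝ := Real.log (r + 2) + Real.log 3 with hR
  have hR0 : 0 ≤ R := by
    have h1 : 0 ≤ Real.log ((r : ℝ) + 2) := Real.log_nonneg (by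
      have : (0 : ℝ) ≤ r := Nat.cast_nonneg r
      linarith)
    have h2 : 0 ≤ Real.log (3 : ℝ) := Real.log_nonneg (by norm_num)
    positivity
  refine ⟨c, hc0, by linarith, ?_⟩
  have hlim := (tendsto_rpow_atTop hc0).comp (tendsto_natCast_atTop_atTop (R := ℝ))
  obtain ⟨n₀, hn₀⟩ := Filter.eventually_atTop.1
    ((hlim.eventually_ge_atTop (300000000 + 9000 * (R + 1))).and (Filter.eventually_ge_atTop 1))
  refine ⟨n₀, ?_⟩
  intro α _ f X n hn hX hOp
  obtain ⟨hK, hn1⟩ := hn₀ n hn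
  have hK' : 300000000 + 9000 * (R + 1) ≤ (n : ℝ) ^ c := hK
  set N : ℝ := (n : ℝ) with hN
  have hN1 : 1 ≤ N := by
    rw [hN]
    exact_mod_cast hn1
  have hN0 : 0 < N := by linarith
  have hmon : ∀ a b : ℝ, a ≤ b → N ^ a ≤ N ^ b := fun a b hab =>
    Real.rpow_le_rpow_of_exponent_le hN1 hab
  set e : ℝ := 1 - d / 3 with he
  have hNe1 : 1 ≤ N ^ e := Real.one_le_rpow hN1 (by linarith)
  have hNc1 : 1 ≤ N ^ c := Real.one_le_rpow hN1 hc0.le
  obtain ⟨t, ht1, ht2⟩ : ∃ t : ℕ, N ^ e ≤ t ∧ (t : ℝ) < N ^ e + 1 :=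
    ⟨⌈N ^ e⌉₊, Nat.le_ceil _, Nat.ceil_lt_add_one (by positivity)⟩
  obtain ⟨l, hl1, hl2⟩ : ∃ l : ℕ, 320003 * N ^ e ≤ l ∧ (l : ℝ) < 320003 * N ^ e + 1 :=
    ⟨⌈320003 * N ^ e⌉₊, Nat.le_ceil _, Nat.ceil_lt_add_one (by positivity)⟩
  obtain ⟨L, hL1, hL2⟩ : ∃ L : ℕ, 400 * (N ^ c + 1) ≤ L ∧ (L : ℝ) < 400 * (N ^ c + 1) + 1 :=
    ⟨⌈400 * (N ^ c + 1)⌉₊, Nat.le_ceil _, Nat.ceil_lt_add_one (by positivity)⟩
  have ht0 : 0 < t := by
    have : (0 : ℝ) < t := by linarith
    exact_mod_cast this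
  -- the main estimate
  have hLl : (L : ℝ) * l + 2 * t ≤ N ^ (1 - c) := by
    have h1 : (L : ℝ) ≤ 801 * N ^ c := by linarith
    have h2 : (l : ℝ) ≤ 320004 * N ^ e := by linarith
    have h3 : (L : ℝ) * l ≤ (801 * N ^ c) * (320004 * N ^ e) :=
      mul_le_mul h1 h2 (by positivity) (by positivity)
    have h4 : 2 * (t : ℝ) ≤ 4 * (N ^ c * N ^ e) := by nlinarith
    have h5 : (L : ℝ) * l + 2 * t ≤ 300000000 * (N ^ c * N ^ e) := by
      have : 0 ≤ N ^ c * N ^ e := by positivity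
      nlinarith
    have h6 : N ^ (1 - c) = N ^ c * (N ^ c * N ^ e) * N ^ c := by
      rw [← Real.rpow_add hN0, ← Real.rpow_add hN0, ← Real.rpow_add hN0]
      congr 1
      rw [he, hc]
      ring
    rw [h6]
    have h7 : 300000000 ≤ N ^ c := by nlinarith
    have h8 : 0 ≤ N ^ c * N ^ e := by positivity
    calc (L : ℝ) * l + 2 * t ≤ 300000000 * (N ^ c * N ^ e) := h5
      _ ≤ N ^ c * (N ^ c * N ^ e) := mul_le_mul_of_nonneg_right h7 h8
      _ ≤ N ^ c * (N ^ c * N ^ e) * N ^ c := by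
        have : 0 ≤ N ^ c * (N ^ c * N ^ e) := by positivity
        nlinarith
  have hNn : N ^ (1 - c) + 1 ≤ N := by
    have h1 : N = N ^ (1 - c) * N ^ c := by
      rw [← Real.rpow_add hN0]
      simp
    have h2 : 1 ≤ N ^ (1 - c) := Real.one_le_rpow hN1 (by linarith)
    nlinarith
  obtain ⟨F, hF1, hF2, hF3⟩ := h r f X t t l L hOp ht0 ht0
    (cond1 (by positivity) hX hL1)
  refine ⟨F, ?_, hF2, ?_⟩
  · have h1 : (F.card : ℝ) ≤
        (((1 + r * (X.card ^ t + 1) * (r * X.card ^ 2) ^ t * (t + 1)) ^ L : ℕ) : ℝ) := by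
      exact_mod_cast hF1
    refine h1.trans (cond5 r X.card t t L ht0 ht0 R (N ^ c) _ (by positivity) hX le_rfl ?_)
    push_cast
    have h2 : (t : ℝ) + 3 * t + 3 ≤ 11 * N ^ e := by linarith
    have h3 : (L : ℝ) ≤ 801 * N ^ c := by linarith
    have h4 : R + N ^ c ≤ (R + 1) * N ^ c := by nlinarith
    have h5 : ((t : ℝ) + 3 * t + 3) * L * (R + N ^ c) ≤
        (11 * N ^ e) * (801 * N ^ c) * ((R + 1) * N ^ c) := by
      refine mul_le_mul (mul_le_mul h2 h3 (by positivity) (by positivity)) h4 (by positivity)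
        (by positivity)
    have h6 : (11 * N ^ e) * (801 * N ^ c) * ((R + 1) * N ^ c) =
        (8811 * (R + 1)) * (N ^ e * N ^ c * N ^ c) := by ring
    have h7 : N ^ (1 - c) = N ^ c * (N ^ e * N ^ c * N ^ c) := by
      rw [← Real.rpow_add hN0, ← Real.rpow_add hN0, ← Real.rpow_add hN0]
      congr 1
      rw [he, hc]
      ring
    rw [h7]
    refine h5.trans ?_
    rw [h6]
    refine mul_le_mul_of_nonneg_right ?_ (by positivity)
    nlinarith
  · intro A hAX hA1 hA2 hW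
    have hW2 : ∀ i, ((image₂ (f i) A A).card : ℝ) ≤ N ^ (2 - d) := fun i =>
      (hW i).trans (hmon _ _ (by linarith))
    have hst : N ^ (2 - 2 * d / 3) ≤ (t : ℝ) * t := by
      have h1 : N ^ (2 - 2 * d / 3) = N ^ e * N ^ e := by
        rw [← Real.rpow_add hN0]
        congr 1
        rw [he]
        ring
      rw [h1]
      exact mul_le_mul ht1 ht1 (by positivity) (by positivity)
    have hA2' : (A.card : ℝ) ≤ N := by
      rw [hN]
      exact_mod_cast hA2
    have hA : ∀ i, 640000 * (image₂ (f i) A A).card ≤ t * t := by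
      intro i
      have h1 : (640000 : ℝ) * (image₂ (f i) A A).card ≤ t * t := by
        refine le_trans ?_ hst
        have h2 : N ^ (2 - 2 * d / 3) = N ^ c * N ^ (2 - d) * N ^ (3 * c) := by
          rw [← Real.rpow_add hN0, ← Real.rpow_add hN0]
          congr 1
          rw [hc]
          ring
        rw [h2]
        have h3 : 1 ≤ N ^ (3 * c) := Real.one_le_rpow hN1 (by linarith)
        have h4 : 640000 ≤ N ^ c := by nlinarith
        have h5 := hW2 i
        have h6 : 0 ≤ N ^ (2 - d) := by positivity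
        calc (640000 : ℝ) * (image₂ (f i) A A).card ≤ N ^ c * N ^ (2 - d) :=
              mul_le_mul h4 h5 (by positivity) (by positivity)
          _ ≤ N ^ c * N ^ (2 - d) * N ^ (3 * c) := by
            have : 0 ≤ N ^ c * N ^ (2 - d) := by positivity
            nlinarith
      exact_mod_cast h1
    have hB : ∀ i, (t : ℝ) + 320000 * (image₂ (f i) A A).card / (t * t) * A.card ≤ l := by
      intro i
      have h1 : (320000 : ℝ) * (image₂ (f i) A A).card / (t * t) * A.card ≤ 320000 * N ^ e := by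
        have h2 : (0 : ℝ) < t * t := by positivity
        rw [div_mul_eq_mul_div, div_le_iff₀ h2]
        have h3 : (320000 : ℝ) * (image₂ (f i) A A).card * A.card ≤ 320000 * N ^ (2 - d) * N := by
          refine mul_le_mul (mul_le_mul_of_nonneg_left (hW2 i) (by norm_num)) hA2' (by positivity)
            (by positivity)
        refine h3.trans ?_
        have h4 : 320000 * N ^ e * N ^ (2 - 2 * d / 3) ≤ 320000 * N ^ e * (t * t) :=
          mul_le_mul_of_nonneg_left hst (by positivity)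
        refine le_trans (le_of_eq ?_) h4
        have h5 : N ^ (2 - d) * N = N ^ e * N ^ (2 - 2 * d / 3) := by
          have h6 : N ^ (2 - d) * N = N ^ (2 - d + 1) := by
            rw [Real.rpow_add hN0, Real.rpow_one]
          rw [h6, ← Real.rpow_add hN0]
          congr 1
          rw [he]
          ring
        rw [mul_assoc, h5]
        ring
      linarith
    have hC : L * l + 2 * t ≤ A.card := by
      have h1 : ((L * l + 2 * t : ℕ) : ℝ) ≤ A.card := by
        push_cast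
        have h2 : N ≤ A.card + 1 := by
          rw [hN]
          exact_mod_cast hA1
        linarith
      exact_mod_cast h1
    obtain ⟨Y, hY, hY1, hY2⟩ := hF3 A hAX hA hB hC
    refine ⟨Y, hY, ?_, fun i => ⟨(hY2 i).1, ?_⟩⟩
    · have h1 : ((A \ Y).card : ℝ) ≤ (L : ℝ) * l := by exact_mod_cast hY1
      have : (0 : ℝ) ≤ t := Nat.cast_nonneg t
      linarith
    · have h1 : ((A \ gd (f i) Y (image₂ (f i) A A)).card : ℝ) ≤ (L : ℝ) * l + t := by
        exact_mod_cast (hY2 i).2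
      have : (0 : ℝ) ≤ t := Nat.cast_nonneg t
      linarith

end Pool.Agent.N862.SPC
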