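import Pool.Agent.N437.SPC.Stm2
import Pool.Agent.N862.SPC.CT

/-! # Project SPC (helper437), part MAIN2: counting over the integers (helper862) -/

set_option autoImplicit false

namespace Pool.Agent.N862.SPC

open Finset Pool.Agent.N437.SPC
open scoped Pointwise

/-- the final count -/
theorem countL (h2 : S_CNT) (c0 η c : ℝ) (n : ℕ) (hc0 : 0 < c0) (hc01 : c0 ≤ 1 / 2)
    (hη : 0 < η) (hc : 0 < c) (hcc : c ≤ c0 / 2) (hcη : c ≤ η / 4) (hN16 : (16 : ℝ) ≤ n)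
    (hNc : (16 : ℝ) ≤ (n : ℝ) ^ (c0 / 2)) (hNη : 2 * Real.exp 2 ≤ (n : ℝ) ^ (η / 2))
    (X : Finset ℤ) (F : Finset (Finset ℤ)) (m : ℕ) (𝒜 : Set (Finset ℤ))
    (hX : Real.log X.card ≤ (n : ℝ) ^ c) (hF : (F.card : ℝ) ≤ Real.exp ((n : ℝ) ^ (1 - c0)))
    (h𝒜 : ∀ A ∈ 𝒜, A ⊆ X ∧ A.card = n ∧ ∃ Y ∈ F, ((A \ Y).card : ℝ) ≤ (n : ℝ) ^ (1 - c0) + 1 ∧
      (Y.card : ℝ) ≤ m * (n : ℝ) ^ (-η)) :
    (𝒜.ncard : ℝ) ≤ ((m : ℝ) / (n : ℝ) ^ (1 + c)) ^ n := by
  classical
  rcases 𝒜.eq_empty_or_nonempty with h0 | ⟨A₀, hA₀⟩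
  · rw [h0]
    simp only [Set.ncard_empty, Nat.cast_zero]
    positivity
  generalize hNdef : (n : ℝ) = N at hN16 hNc hNη hX hF h𝒜 ⊢
  have hN0 : 0 < N := by linarith
  have hN1 : 1 ≤ N := by linarith
  have hn0 : 0 < n := by
    have : (0 : ℝ) < n := by rw [hNdef]; exact hN0
    exact_mod_cast this
  set a : ℝ := N ^ (1 - c0) with ha
  have ha1 : 1 ≤ a := Real.one_le_rpow hN1 (by linarith)
  set b : ℝ := N ^ (c0 / 2) with hb
  have hab : N = a * b * b := by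
    rw [ha, hb, ← Real.rpow_add hN0, ← Real.rpow_add hN0]
    have : 1 - c0 + c0 / 2 + c0 / 2 = 1 := by ring
    rw [this, Real.rpow_one]
  have haN : 256 * a ≤ N := by
    have h1 : 256 ≤ b * b := by nlinarith
    calc 256 * a ≤ (b * b) * a := mul_le_mul_of_nonneg_right h1 (by linarith)
      _ = N := by rw [hab]; ring
  set D : ℕ := ⌊a⌋₊ + 1 with hD
  have hD1 : (D : ℝ) ≤ a + 1 := by
    rw [hD]
    push_cast
    have := Nat.floor_le (a := a) (by linarith)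
    linarith
  have hDn : 2 * D ≤ n := by
    have : ((2 * D : ℕ) : ℝ) ≤ n := by
      push_cast
      rw [hNdef]
      linarith
    exact_mod_cast this
  have hle : ∀ k : ℕ, (k : ℝ) ≤ a + 1 → k ≤ D := by
    intro k hk
    have h3 : k ≤ ⌊a + 1⌋₊ := Nat.le_floor hk
    rwa [Nat.floor_add_one (by linarith)] at h3
  set M : ℝ := m * N ^ (-η) with hM
  have hn2M : (n : ℝ) ≤ 2 * M := by
    obtain ⟨_, hcard, Y, _, h3, h4⟩ := h𝒜 A₀ hA₀
    have h5 := hle _ h3
    have h6 : n ≤ (A₀ \ Y).card + Y.card := by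
      rw [← hcard]
      have := card_le_card (s := A₀) (t := (A₀ \ Y) ∪ Y) (by
        intro x hx
        by_cases hxY : x ∈ Y <;> simp [hx, hxY])
      exact this.trans (card_union_le _ _)
    have h7 : (n : ℝ) ≤ (D : ℝ) + M := by
      have h8 : (n : ℝ) ≤ (A₀ \ Y).card + Y.card := by exact_mod_cast h6
      have h9 : ((A₀ \ Y).card : ℝ) ≤ D := by exact_mod_cast h5
      linarith
    have h8 : 2 * (D : ℝ) ≤ n := by exact_mod_cast hDn
    linarith
  have hM0 : 0 < M := by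
    have : (0 : ℝ) < n := by rw [hNdef]; exact hN0
    linarith
  set F' : Finset (Finset ℤ) := F.filter fun Y => (Y.card : ℝ) ≤ M with hF'
  have h3 := h2 X F' n D M hn0 hDn (fun Y hY => (mem_filter.1 hY).2) hn2M
  have h4 : 𝒜 ⊆ ↑((X.powersetCard n).filter (fun A => ∃ Y ∈ F', (A \ Y).card ≤ D)) := by
    intro A hA
    obtain ⟨h5, h6, Y, hY, h7, h8⟩ := h𝒜 A hA
    rw [mem_coe, mem_filter, mem_powersetCard]
    exact ⟨⟨h5, h6⟩, Y, mem_filter.2 ⟨hY, h8⟩, hle _ h7⟩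
  have h5 : (𝒜.ncard : ℝ) ≤
      (((X.powersetCard n).filter (fun A => ∃ Y ∈ F', (A \ Y).card ≤ D)).card : ℝ) := by
    have := Set.ncard_le_ncard h4 (finite_toSet _)
    rw [Set.ncard_coe_finset] at this
    exact_mod_cast this
  refine h5.trans (h3.trans ?_)
  -- the estimate
  have e1 : (F'.card : ℝ) ≤ Real.exp a := by
    refine le_trans ?_ hF
    exact_mod_cast card_le_card (filter_subset _ _)
  have hNc1 : 1 ≤ N ^ c := Real.one_le_rpow hN1 hc.le
  have hX0 : (0 : ℝ) ≤ (X.card : ℝ) + 1 := by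
    have := Nat.cast_nonneg (α := ℝ) X.card
    linarith
  have e2 : ((X.card : ℝ) + 1) ^ D ≤ Real.exp (N / 4) := by
    have h6 : (X.card : ℝ) + 1 ≤ Real.exp (2 * N ^ c) := by
      have h7 : (X.card : ℝ) ≤ Real.exp (N ^ c) := logcard (by positivity) hX
      have h8 : Real.exp (2 * N ^ c) = Real.exp (N ^ c) * Real.exp (N ^ c) := by
        rw [← Real.exp_add]
        ring_nf
      have h9 : 2 ≤ Real.exp (N ^ c) := by
        have := Real.add_one_le_exp (N ^ c)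
        linarith
      rw [h8]
      nlinarith
    have h7 := pow_le_pow_left₀ hX0 h6 D
    rw [← Real.exp_nat_mul] at h7
    refine h7.trans (Real.exp_le_exp.2 ?_)
    have h8 : N ^ c ≤ b := Real.rpow_le_rpow_of_exponent_le hN1 hcc
    have h9 : (D : ℝ) ≤ 2 * a := by linarith
    calc (D : ℝ) * (2 * N ^ c) ≤ (2 * a) * (2 * b) := by
          refine mul_le_mul h9 (by linarith) (by positivity) (by positivity)
      _ ≤ N / 4 := by
        rw [hab]
        have : 0 < a * b := by positivity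
        nlinarith
  have e3 : ((n : ℝ) + 1) ≤ Real.exp (N / 2) := by
    have h6 := Real.quadratic_le_exp_of_nonneg (x := N / 2) (by linarith)
    rw [hNdef]
    nlinarith
  have e4 : (F'.card : ℝ) * ((X.card : ℝ) + 1) ^ D * (n + 1) ≤ Real.exp N := by
    calc (F'.card : ℝ) * ((X.card : ℝ) + 1) ^ D * (n + 1)
        ≤ Real.exp a * Real.exp (N / 4) * Real.exp (N / 2) := by
          refine mul_le_mul (mul_le_mul e1 e2 (pow_nonneg hX0 D) (Real.exp_pos _).le) e3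
            (by have := Nat.cast_nonneg (α := ℝ) n; linarith)
            (mul_nonneg (Real.exp_pos _).le (Real.exp_pos _).le)
      _ = Real.exp (a + N / 4 + N / 2) := by
        rw [Real.exp_add, Real.exp_add]
      _ ≤ Real.exp N := Real.exp_le_exp.2 (by linarith)
  have e5 : Real.exp N * (2 * Real.exp 1 * M / n) ^ n ≤ ((m : ℝ) / N ^ (1 + c)) ^ n := by
    have h6 : Real.exp N = Real.exp 1 ^ n := by
      rw [← Real.exp_nat_mul, mul_one, hNdef]
    rw [h6, ← mul_pow, hNdef]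
    refine pow_le_pow_left₀ (by positivity) ?_ n
    have h7 : Real.exp 1 * (2 * Real.exp 1 * M / N) = (2 * Real.exp 2) * (m * (N ^ (-η) / N)) := by
      have h8 : Real.exp 2 = Real.exp 1 * Real.exp 1 := by
        rw [← Real.exp_add]
        norm_num
      rw [hM, h8]
      ring
    rw [h7]
    have h8 : (2 * Real.exp 2) * (m * (N ^ (-η) / N)) ≤ N ^ (η / 2) * (m * (N ^ (-η) / N)) :=
      mul_le_mul_of_nonneg_right hNη (by positivity)
    refine h8.trans ?_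
    have h9 : N ^ (η / 2) * (m * (N ^ (-η) / N)) = m * N ^ (-(1 + η / 2)) := by
      have h10 : N ^ (-(1 + η / 2)) = N ^ (η / 2) * (N ^ (-η) / N) := by
        rw [← Real.rpow_sub_one hN0.ne', ← Real.rpow_add hN0]
        congr 1
        ring
      rw [h10]
      ring
    have h10 : (m : ℝ) / N ^ (1 + c) = m * N ^ (-(1 + c)) := by
      rw [Real.rpow_neg hN0.le, div_eq_mul_inv]
    rw [h9, h10]
    refine mul_le_mul_of_nonneg_left ?_ (Nat.cast_nonneg m)
    exact Real.rpow_le_rpow_of_exponent_le hN1 (by linarith)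
  calc (F'.card : ℝ) * ((X.card : ℝ) + 1) ^ D * (n + 1) * (2 * Real.exp 1 * M / n) ^ n
      ≤ Real.exp N * (2 * Real.exp 1 * M / n) ^ n :=
        mul_le_mul_of_nonneg_right e4 (by positivity)
    _ ≤ _ := e5

/-- the container is small -/
theorem claimL (k : ℕ) (ε η c0 c : ℝ) (n : ℕ) (hc0 : 0 < c0) (hc01 : c0 ≤ 1 / 2)
    (hη : 0 < η) (hc : 0 < c) (hcc : c ≤ c0 / 2) (hN16 : (16 : ℝ) ≤ n)
    (hNc : (16 : ℝ) ≤ (n : ℝ) ^ (c0 / 2)) (hNη : 2 * Real.exp 2 ≤ (n : ℝ) ^ (η / 2))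
    (hNε : (2 : ℝ) ^ k ≤ (n : ℝ) ^ (ε / 2)) (Y G W : Finset ℤ) (gg m : ℕ)
    (P : (Fin k → Finset ℤ) → ℕ) (hPm : ∀ B B', (∀ i, B' i ⊆ B i) → P B' ≤ P B)
    (hT : 9 * Y.card ^ 2 * gg ≤ 10 * W.card ^ 3) (hW : W.card ≤ m)
    (hm : (m : ℝ) ≤ (n : ℝ) ^ (2 : ℝ))
    (hYG : 99 * Y.card ≤ 100 * G.card) (hGY : G ⊆ Y)
    (hYW : G.Nonempty → 97 * Y.card ≤ 100 * W.card)
    (hP : (gg : ℝ) ≤ (n : ℝ) ^ (4 * η) * G.card → (G.card : ℝ) ≤ (n : ℝ) ^ 3 →
      ∀ B : Fin k → Finset ℤ, (∀ i, B i ⊆ G ∧ 2 ≤ (B i).card) →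
        ∏ i, ((B i).card : ℝ) ≤ (n : ℝ) ^ (ε / 2) * P B)
    (B : Fin k → Finset ℤ) (hB1 : ∀ i, ((B i \ G).card : ℝ) ≤ (n : ℝ) ^ (1 - c0) + 1)
    (hB2 : ∀ i, (n : ℝ) ^ (1 - c) ≤ (B i).card)
    (hB3 : (P B : ℝ) < (n : ℝ) ^ (-ε) * ∏ i, ((B i).card : ℝ)) :
    (Y.card : ℝ) ≤ m * (n : ℝ) ^ (-η) := by
  by_contra hcon
  rw [not_le] at hcon
  generalize hNdef : (n : ℝ) = N at hN16 hNc hNη hNε hm hP hB1 hB2 hB3 hcon ⊢
  have hN0 : 0 < N := by linarith
  have hN1 : 1 ≤ N := by linarith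
  have hY0 : (0 : ℝ) < Y.card := lt_of_le_of_lt (by positivity) hcon
  have hYG' : 99 * (Y.card : ℝ) ≤ 100 * G.card := by exact_mod_cast hYG
  have hG0 : (0 : ℝ) < G.card := by linarith
  have hGne : G.Nonempty := by
    rw [← card_pos]
    exact_mod_cast hG0
  have hYW' : 97 * (Y.card : ℝ) ≤ 100 * W.card := by exact_mod_cast hYW hGne
  have hW' : (W.card : ℝ) ≤ m := by exact_mod_cast hW
  -- `m < |Y| N ^ η`
  have hmY : (m : ℝ) < Y.card * N ^ η := by
    have h1 : N ^ (-η) * N ^ η = 1 := by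
      rw [← Real.rpow_add hN0]
      simp
    have h2 := mul_lt_mul_of_pos_right hcon (Real.rpow_pos_of_pos hN0 η)
    rwa [mul_assoc, h1, mul_one] at h2
  have hT' : 9 * (Y.card : ℝ) ^ 2 * gg ≤ 10 * W.card ^ 3 := by exact_mod_cast hT
  have hexp2 : 1 ≤ Real.exp 2 := Real.one_le_exp (by norm_num)
  have hNη2 : 2 ≤ N ^ η := by
    have h1 : N ^ η = N ^ (η / 2) * N ^ (η / 2) := by
      rw [← Real.rpow_add hN0]
      ring_nf
    rw [h1]
    nlinarith
  have hgg : (gg : ℝ) ≤ N ^ (4 * η) * G.card := by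
    have h4 : N ^ (4 * η) = N ^ η * (N ^ η * N ^ η * N ^ η) := by
      rw [← Real.rpow_add hN0, ← Real.rpow_add hN0, ← Real.rpow_add hN0]
      congr 1
      ring
    set z : ℝ := N ^ η with hz
    have hz0 : 0 < z := by linarith
    have h5 : (W.card : ℝ) ^ 3 ≤ (Y.card * z) ^ 3 :=
      pow_le_pow_left₀ (by positivity) (hW'.trans hmY.le) 3
    have h6 : 9 * (Y.card : ℝ) ^ 2 * gg ≤ (Y.card : ℝ) ^ 2 * (10 * Y.card * z ^ 3) := by
      nlinarith
    have h7 : 9 * (gg : ℝ) ≤ 10 * Y.card * z ^ 3 := by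
      have h8 : 0 < (Y.card : ℝ) ^ 2 := by positivity
      have h9 : (Y.card : ℝ) ^ 2 * (9 * gg) ≤ (Y.card : ℝ) ^ 2 * (10 * Y.card * z ^ 3) := by
        linarith
      exact le_of_mul_le_mul_left h9 h8
    have h8 : (Y.card : ℝ) * z ^ 3 ≤ (100 / 99 * G.card) * z ^ 3 :=
      mul_le_mul_of_nonneg_right (by linarith) (by positivity)
    rw [h4]
    have h9 : 0 ≤ (G.card : ℝ) * z ^ 3 := by positivity
    nlinarith
  have hGN : (G.card : ℝ) ≤ N ^ 3 := by
    have h1 : (G.card : ℝ) ≤ Y.card := by exact_mod_cast card_le_card hGY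
    have h2 : N ^ (2 : ℝ) = N ^ 2 := by
      rw [← Real.rpow_natCast]
      norm_num
    rw [h2] at hm
    have h3 : (Y.card : ℝ) ≤ 2 * N ^ 2 := by nlinarith
    nlinarith [pow_pos hN0 2]
  have hkey := hP hgg hGN
  -- sizes of the `B i ∩ G`
  have ha1 : 1 ≤ N ^ (1 - c0) := Real.one_le_rpow hN1 (by linarith)
  have hbig : ∀ i, 4 * N ^ (1 - c0) ≤ (B i).card := by
    intro i
    refine le_trans ?_ (hB2 i)
    have h1 : N ^ (1 - c) = N ^ (c0 - c) * N ^ (1 - c0) := by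
      rw [← Real.rpow_add hN0]
      congr 1
      ring
    rw [h1]
    refine mul_le_mul_of_nonneg_right ?_ (by positivity)
    have h2 : N ^ (c0 / 2) ≤ N ^ (c0 - c) := Real.rpow_le_rpow_of_exponent_le hN1 (by linarith)
    linarith
  have hsum : ∀ i, ((B i).card : ℝ) = (B i ∩ G).card + (B i \ G).card := by
    intro i
    exact_mod_cast (card_inter_add_card_sdiff (B i) G).symm
  have hhalf : ∀ i, ((B i).card : ℝ) ≤ 2 * (B i ∩ G).card := by
    intro i
    have h1 := hsum i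
    have h2 := hB1 i
    have h3 := hbig i
    linarith
  have h2B : ∀ i, 2 ≤ (B i ∩ G).card := by
    intro i
    have h1 := hhalf i
    have h3 := hbig i
    have h4 : (2 : ℝ) ≤ (B i ∩ G).card := by linarith
    exact_mod_cast h4
  have h1 := hkey (fun i => B i ∩ G) fun i => ⟨inter_subset_right, h2B i⟩
  have h2 : ∏ i, ((B i).card : ℝ) ≤ 2 ^ k * ∏ i, ((B i ∩ G).card : ℝ) := by
    calc ∏ i, ((B i).card : ℝ) ≤ ∏ i, (2 * ((B i ∩ G).card : ℝ)) :=
          prod_le_prod (fun i _ => by positivity) fun i _ => hhalf i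
      _ = 2 ^ k * ∏ i, ((B i ∩ G).card : ℝ) := by
        rw [prod_mul_distrib, prod_const, card_univ, Fintype.card_fin]
  have h3 : (P (fun i => B i ∩ G) : ℝ) ≤ P B := by
    exact_mod_cast hPm B _ fun i => inter_subset_left
  have h4 : ∏ i, ((B i).card : ℝ) ≤ N ^ ε * P B := by
    have h5 : N ^ ε = N ^ (ε / 2) * N ^ (ε / 2) := by
      rw [← Real.rpow_add hN0]
      ring_nf
    rw [h5]
    calc ∏ i, ((B i).card : ℝ) ≤ 2 ^ k * ∏ i, ((B i ∩ G).card : ℝ) := h2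
      _ ≤ 2 ^ k * (N ^ (ε / 2) * P fun i => B i ∩ G) :=
        mul_le_mul_of_nonneg_left h1 (by positivity)
      _ ≤ N ^ (ε / 2) * (N ^ (ε / 2) * P B) := by
        refine mul_le_mul hNε (mul_le_mul_of_nonneg_left h3 (by positivity)) (by positivity)
          (by positivity)
      _ = N ^ (ε / 2) * N ^ (ε / 2) * P B := by ring
  have h5 : N ^ (-ε) * N ^ ε = 1 := by
    rw [← Real.rpow_add hN0]
    simp
  have h6 : N ^ (-ε) * ∏ i, ((B i).card : ℝ) ≤ P B := by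
    calc N ^ (-ε) * ∏ i, ((B i).card : ℝ) ≤ N ^ (-ε) * (N ^ ε * P B) :=
          mul_le_mul_of_nonneg_left h4 (by positivity)
      _ = P B := by rw [← mul_assoc, h5, one_mul]
  linarith

theorem cnt_le {f : ℤ → ℤ → ℤ} {y : ℤ} {Y W : Finset ℤ}
    (hf : ∀ u ∈ Y, ∀ v ∈ Y, f y u = f y v → u = v) : cnt f y Y W ≤ W.card := by
  unfold cnt
  refine card_le_card_of_injOn (f y) ?_ ?_
  · intro u hu
    have hu' : u ∈ Y.filter fun u => f y u ∈ W := hu
    exact (mem_filter.1 hu').2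
  · intro u hu v hv huv
    have hu' : u ∈ Y.filter fun u => f y u ∈ W := hu
    have hv' : v ∈ Y.filter fun u => f y u ∈ W := hv
    exact hf u (mem_filter.1 hu').1 v (mem_filter.1 hv').1 huv

theorem gd_sub (f : ℤ → ℤ → ℤ) (Y W : Finset ℤ) : gd f Y W ⊆ Y := filter_subset _ _

theorem gd_bound {f : ℤ → ℤ → ℤ} {Y W : Finset ℤ}
    (hf : ∀ y ∈ Y, ∀ u ∈ Y, ∀ v ∈ Y, f y u = f y v → u = v) :
    (gd f Y W).Nonempty → 97 * Y.card ≤ 100 * W.card := by
  rintro ⟨g, hg⟩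
  unfold gd at hg
  rw [mem_filter] at hg
  exact hg.2.trans (Nat.mul_le_mul_left _ (cnt_le (hf g hg.1)))

theorem log_le_of {x y : ℕ} (h : x ≤ y) {z : ℝ} (hz : 0 ≤ z) (hy : Real.log y ≤ z) :
    Real.log x ≤ z := by
  rcases Nat.eq_zero_or_pos x with h0 | h0
  · subst h0
    simpa using hz
  · refine le_trans (Real.log_le_log (by exact_mod_cast h0) (by exact_mod_cast h)) hy

theorem t_MAIN2 (h1 : S_CT) (h2 : S_CNT) (h3 : S_TRI) (h4 : S_PROD) (h5 : S_SUM) : S_MAIN2 := by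
  intro k ε δ hk hε hδ
  obtain ⟨c0, hc0, hc01, n1, hCT⟩ := h1 1 δ hδ
  obtain ⟨ηP, hηP, n2, hPROD⟩ := h4 k (ε / 2) hk (by positivity)
  obtain ⟨ηS, hηS, n3, hSUM⟩ := h5 k (ε / 2) hk (by positivity)
  obtain ⟨η, hη, hη1, hη2⟩ : ∃ η : ℝ, 0 < η ∧ 4 * η ≤ ηP ∧ 4 * η ≤ ηS :=
    ⟨min ηP ηS / 4, div_pos (lt_min hηP hηS) (by norm_num), by
      have := min_le_left ηP ηS
      linarith, by
      have := min_le_right ηP ηS
      linarith⟩
  obtain ⟨c, hc, hcc, hcη⟩ : ∃ c : ℝ, 0 < c ∧ c ≤ c0 / 2 ∧ c ≤ η / 4 :=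
    ⟨min (c0 / 2) (η / 4), lt_min (by positivity) (by positivity), min_le_left _ _,
      min_le_right _ _⟩
  refine ⟨c, hc, ?_⟩
  have hlim : ∀ y : ℝ, 0 < y → Filter.Tendsto (fun n : ℕ => (n : ℝ) ^ y) Filter.atTop
      Filter.atTop := fun y hy => (tendsto_rpow_atTop hy).comp tendsto_natCast_atTop_atTop
  have hev : ∀ᶠ n : ℕ in Filter.atTop, (n1 ≤ n ∧ n2 ≤ n ∧ n3 ≤ n ∧ 16 ≤ n) ∧
      (16 : ℝ) ≤ (n : ℝ) ^ (c0 / 2) ∧ 2 * Real.exp 2 ≤ (n : ℝ) ^ (η / 2) ∧
      (2 : ℝ) ^ k ≤ (n : ℝ) ^ (ε / 2) := by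
    filter_upwards [Filter.eventually_ge_atTop n1, Filter.eventually_ge_atTop n2,
      Filter.eventually_ge_atTop n3, Filter.eventually_ge_atTop 16,
      (hlim (c0 / 2) (by positivity)).eventually_ge_atTop 16,
      (hlim (η / 2) (by positivity)).eventually_ge_atTop (2 * Real.exp 2),
      (hlim (ε / 2) (by positivity)).eventually_ge_atTop ((2 : ℝ) ^ k)] with n a1 a2 a3 a4 a5 a6 a7
    exact ⟨⟨a1, a2, a3, a4⟩, a5, a6, a7⟩
  obtain ⟨n₀, hn₀⟩ := Filter.eventually_atTop.1 hev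
  refine ⟨n₀, ?_⟩
  intro n X m hn hX hm
  obtain ⟨⟨b1, b2, b3, b4⟩, hNc, hNη, hNε⟩ := hn₀ n hn
  have hN16 : (16 : ℝ) ≤ n := by exact_mod_cast b4
  have hN1 : (1 : ℝ) ≤ n := by linarith
  have hmono : ∀ a b : ℝ, a ≤ b → (n : ℝ) ^ a ≤ (n : ℝ) ^ b := fun a b hab =>
    Real.rpow_le_rpow_of_exponent_le hN1 hab
  have hm2 : (m : ℝ) ≤ (n : ℝ) ^ (2 : ℝ) := hm.trans (hmono _ _ (by linarith))
  have hNc0 : 0 ≤ (n : ℝ) ^ (1 - c0) := by positivity
  constructor
  · -- sums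
    obtain ⟨F, hF1, hF2, hF3⟩ := hCT (fun _ a b => a + b) X n b1
      (hX.trans (hmono _ _ (by linarith))) (fun _ => ⟨fun x _ y _ => add_comm x y,
        fun x _ y _ z _ h => add_left_cancel h⟩)
    refine countL h2 c0 η c n hc0 hc01 hη hc hcc hcη hN16 hNc hNη X F m _ hX hF1 ?_
    rintro A ⟨hAX, hAn, hAm, B, hB, hBlt⟩
    have hW : (image₂ (fun a b : ℤ => a + b) A A).card ≤ m := hAm
    obtain ⟨Y, hYF, hAY, hG⟩ := hF3 A hAX (by omega) (by omega) (fun _ => by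
      have : ((image₂ (fun a b : ℤ => a + b) A A).card : ℝ) ≤ m := by exact_mod_cast hW
      exact this.trans hm)
    obtain ⟨hG1, hG2⟩ := hG 0
    refine ⟨hAX, hAn, Y, hYF, hAY.trans (by linarith), ?_⟩
    generalize hWdef : image₂ (fun a b : ℤ => a + b) A A = W at hW hG1 hG2
    have hgb : (gd (fun a b : ℤ => a + b) Y W).Nonempty → 97 * Y.card ≤ 100 * W.card :=
      gd_bound (f := fun a b : ℤ => a + b) fun y _ u _ v _ h => by
        have h' : y + u = y + v := h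
        exact add_left_cancel h'
    have hT := h3.1 Y W hG1
    have hGY : gd (fun a b : ℤ => a + b) Y W ⊆ Y := gd_sub _ _ _
    generalize hGdef : gd (fun a b : ℤ => a + b) Y W = G at hG1 hG2 hgb hT hGY
    obtain ⟨P, hP⟩ : ∃ P : (Fin k → Finset ℤ) → ℕ, ∀ B : Fin k → Finset ℤ,
        P B = ((Fintype.piFinset B).image fun b => ∏ i, b i).card := ⟨_, fun B => rfl⟩
    rw [← hP B] at hBlt
    refine claimL k ε η c0 c n hc0 hc01 hη hc hcc hN16 hNc hNη hNε Y G W (G + G).card m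
      P ?_ hT hW hm2 hG1 hGY hgb ?_ B ?_ (fun i => (hB i).2) hBlt
    · intro B B' hBB
      rw [hP, hP]
      exact card_le_card (image_subset_image (Fintype.piFinset_subset _ _ hBB))
    · intro hgg hGN B hB
      rw [hP]
      refine hPROD n G b2 hGN (hgg.trans ?_) B hB
      exact mul_le_mul_of_nonneg_right (hmono _ _ hη1) (Nat.cast_nonneg _)
    · intro i
      have h6 : ((B i \ G).card : ℝ) ≤ (A \ G).card := by
        exact_mod_cast card_le_card (sdiff_subset_sdiff (hB i).1 (Subset.refl _))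
      linarith
  · -- products
    have hX0 : (X.erase 0).card ≤ X.card := card_le_card (erase_subset _ _)
    obtain ⟨F, hF1, hF2, hF3⟩ := hCT (fun _ a b => a * b) (X.erase 0) n b1
      (log_le_of hX0 (by positivity) (hX.trans (hmono _ _ (by linarith))))
      (fun _ => ⟨fun x _ y _ => mul_comm x y, fun x hx y _ z _ h =>
        mul_left_cancel₀ (ne_of_mem_erase hx) h⟩)
    refine countL h2 c0 η c n hc0 hc01 hη hc hcc hcη hN16 hNc hNη X F m _ hX hF1 ?_
    rintro A ⟨hAX, hAn, hAm, B, hB, l, hl, hBlt⟩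
    set A0 := A.erase 0 with hA0
    have hAA0 : A.card ≤ A0.card + 1 := by
      have : A.card - 1 ≤ A0.card := pred_card_le_card_erase
      omega
    have hA0A : A0.card ≤ A.card := card_le_card (erase_subset _ _)
    have hW : (image₂ (fun a b : ℤ => a * b) A0 A0).card ≤ m := by
      refine le_trans (card_le_card ?_) hAm
      exact image₂_subset (erase_subset _ _) (erase_subset _ _)
    obtain ⟨Y, hYF, hAY, hG⟩ := hF3 A0 (erase_subset_erase _ hAX) (by omega) (by omega) (fun _ => by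
      have : ((image₂ (fun a b : ℤ => a * b) A0 A0).card : ℝ) ≤ m := by exact_mod_cast hW
      exact this.trans hm)
    obtain ⟨hG1, hG2⟩ := hG 0
    have hY0 : (0 : ℤ) ∉ Y := fun h => (mem_erase.1 (hF2 Y hYF h)).1 rfl
    have hins : ∀ S T : Finset ℤ, S ⊆ A → ((S \ T).card : ℝ) ≤ (A0 \ T).card + 1 := by
      intro S T hST
      have h6 : S \ T ⊆ insert 0 (A0 \ T) := by
        intro x hx
        rw [mem_sdiff] at hx
        rw [mem_insert, mem_sdiff, hA0, mem_erase]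
        by_cases hx0 : x = 0
        · exact Or.inl hx0
        · exact Or.inr ⟨⟨hx0, hST hx.1⟩, hx.2⟩
      exact_mod_cast (card_le_card h6).trans (card_insert_le _ _)
    refine ⟨hAX, hAn, Y, hYF, ?_, ?_⟩
    · have := hins A Y (Subset.refl _)
      linarith
    generalize hWdef : image₂ (fun a b : ℤ => a * b) A0 A0 = W at hW hG1 hG2
    have hgb : (gd (fun a b : ℤ => a * b) Y W).Nonempty → 97 * Y.card ≤ 100 * W.card :=
      gd_bound (f := fun a b : ℤ => a * b) fun y hy u _ v _ h => by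
        have h' : y * u = y * v := h
        have hy0 : y ≠ 0 := fun h0 => by
          rw [h0] at hy
          exact hY0 hy
        exact mul_left_cancel₀ hy0 h'
    have hT := h3.2 Y W hY0 hG1
    have hGY : gd (fun a b : ℤ => a * b) Y W ⊆ Y := gd_sub _ _ _
    generalize hGdef : gd (fun a b : ℤ => a * b) Y W = G at hG1 hG2 hgb hT hGY
    obtain ⟨P, hP⟩ : ∃ P : (Fin k → Finset ℤ) → ℕ, ∀ B : Fin k → Finset ℤ,
        P B = ((Fintype.piFinset B).image fun b => ∑ i, l i * b i).card := ⟨_, fun B => rfl⟩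
    rw [← hP B] at hBlt
    refine claimL k ε η c0 c n hc0 hc01 hη hc hcc hN16 hNc hNη hNε Y G W (G * G).card m
      P ?_ hT hW hm2 hG1 hGY hgb ?_ B ?_ (fun i => (hB i).2) hBlt
    · intro B B' hBB
      rw [hP, hP]
      exact card_le_card (image_subset_image (Fintype.piFinset_subset _ _ hBB))
    · intro hgg hGN B hB
      rw [hP]
      refine hSUM n G b3 (fun h => hY0 (hGY h)) (hgg.trans ?_) B (fun i => (hB i).1) l hl
      exact mul_le_mul_of_nonneg_right (hmono _ _ hη2) (Nat.cast_nonneg _)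
    · intro i
      have := hins (B i) G (hB i).1
      linarith

end Pool.Agent.N862.SPC
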